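import Mathlib
import Pool.Agent.MP_6eaae3_al.Act
import Pool.Agent.MP_6eaae3_al.G2

/-! The Artin group of affine type `G2~` embeds in the mapping class group of a closed disc with
eight punctures. -/

namespace Pool.Agent.Results.MP_6eaae3_al.AffineG2

open Pool.Agent.MP_6eaae3_al Set

noncomputable def geo : Geo where
  N := 8
  R := 10
  a := fun j => j
  ρ := fun _ => 3 / 4
  φ := fun _ => ⟨fun x => max 0 (min 1 (3 - 4 * x)), by fun_prop⟩
  η := 1 / 2
  mono := Nat.strictMono_cast
  one := fun i x h => by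
    push_cast at h
    show max 0 (min 1 (3 - 4 * x)) = 1
    rw [min_eq_left (by linarith), max_eq_right zero_le_one]
  zero := fun i x h => max_eq_left (min_le_of_right_le (by linarith))
  left := fun i => by push_cast; linarith
  right := fun i => by push_cast; linarith
  far := fun i j h => by
    have : ((i + 2 : ℕ) : ℝ) ≤ j := Nat.cast_le.2 h
    push_cast at this ⊢; linarith
  inn := fun i h => by
    have : (i : ℝ) ≤ (6 : ℕ) := Nat.cast_le.2 (by omega)
    rw [abs_of_nonneg (by positivity)]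
    push_cast at this ⊢; linarith
  gap := fun i => by push_cast; linarith
  box := fun j h => by
    have : (j : ℝ) ≤ (7 : ℕ) := Nat.cast_le.2 (by omega)
    rw [abs_of_nonneg (by positivity)]
    push_cast at this; linarith

theorem result : ∃ φ : PresentedGroup (artinRels labelG2) →*
    MCG {z : ℂ // ‖z‖ ≤ 10 ∧ ∀ j : ℕ, j < 8 → z ≠ j} {z | ‖z.1‖ = 10}, Function.Injective φ := by
  obtain ⟨s, hs, key⟩ := geo.faithful (by decide) (fun z => ‖z‖ ≤ 10 ∧ ∀ j : ℕ, j < 8 → z ≠ j)
    fun z => and_congr Iff.rfl ⟨fun h ⟨j, hj, e⟩ => h j hj e.symm, fun h j hj e => h ⟨j, hj, e.symm⟩⟩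
  refine ⟨homG s hs, (injective_iff_map_eq_one _).2 fun a ha => homP_injective ?_⟩
  let Φ := homG _ (BraidRel.prod hs (braidRel_psi 0 7))
  have e : Φ = (homG s hs).prod homP := PresentedGroup.ext fun v => by
    rw [homG_of, lift_prod, MonoidHom.prod_apply, homG_of, homP_of]; rfl
  have m : ∀ v, Φ (PresentedGroup.of v) ∈ Subgroup.closure ((fun i => (s i, psi i)) '' Ico 0 7) :=
    fun v => by
      rw [homG_of]
      have : ∀ v, ∀ x ∈ wG v, x.1 < 7 := by decide
      exact lift_mk_mem _ fun x hx => ⟨Nat.zero_le _, this v x hx⟩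
  have := key (Φ a) (AG_ind (H := (Subgroup.closure ((fun i => (s i, psi i)) '' Ico 0 7)).comap Φ)
    (m 0) (m 1) (m 2) a) (by rw [e]; exact ha)
  rwa [e] at this

end Pool.Agent.Results.MP_6eaae3_al.AffineG2
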