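import Pool.Agent.MP_6eaae3_al.Cl.Cyc
import Pool.Agent.MP_6eaae3_al.IS.All
import Pool.Agent.MP_6eaae3_al.DN.All

/-! An Artin group embeds in the mapping class group of a surface if in each of its irreducible
cliques no label three or five is adjacent to a label two, or every label adjacent to a label two is
two or odd and at least five, or the clique is a linear diagram of type `A`, `B` or affine `C`, a
cycle of affine type `A`, or of type `H3` or `D4`. -/

namespace Pool.Agent.Results.MP_6eaae3_al.TwoApart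

open Pool.Agent.MP_6eaae3_al

/-- There is an injective homomorphism from `G` to `H`. -/
def Embeds (G H : Type) [Group G] [Group H] : Prop := ∃ φ : G →* H, Function.Injective φ

/-- A nonempty set of pairwise adjacent vertices that does not split into two parts all of whose
mutual labels are two. -/
def IrrClique {V : Type} (m : V → V → ℕ) (Λ : Set V) : Prop :=
  Λ.Nonempty ∧ (∀ s ∈ Λ, ∀ t ∈ Λ, s ≠ t → m s t ≠ 0) ∧
    ∀ c ⊂ Λ, c.Nonempty → ∃ s ∈ c, ∃ t ∈ Λ \ c, m s t ≠ 2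

/-- At a vertex that carries a label two no label is three or five. -/
def Apart {V : Type} (m : V → V → ℕ) (Λ : Set V) : Prop :=
  ∀ s ∈ Λ, ∀ t ∈ Λ, ∀ u ∈ Λ, s ≠ t → s ≠ u → m s u = 2 → m s t ≠ 3 ∧ m s t ≠ 5

/-- At a vertex that carries a label two every label is two, or odd and at least five. -/
def OddAtTwo {V : Type} (m : V → V → ℕ) (Λ : Set V) : Prop :=
  ∀ s ∈ Λ, ∀ t ∈ Λ, ∀ u ∈ Λ, s ≠ t → s ≠ u → m s u = 2 → m s t = 2 ∨ (Odd (m s t) ∧ 5 ≤ m s t)

/-- The vertices can be listed so that consecutive ones have label three, or four at the first or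
last step, and all other labels are two. -/
def IsPath {V : Type} (m : V → V → ℕ) (Λ : Set V) : Prop :=
  ∃ (n : ℕ) (e : ℕ → V), Set.InjOn e (Set.Iio n) ∧ e '' Set.Iio n = Λ ∧
    (∀ i j, i + 1 < j → j < n → m (e i) (e j) = 2) ∧
    ∀ i, i + 1 < n → m (e i) (e (i + 1)) = 3 ∨ (m (e i) (e (i + 1)) = 4 ∧ (i = 0 ∨ i + 2 = n))

/-- The vertices can be listed cyclically so that consecutive ones have label three and all other
labels are two. -/
def IsCycle {V : Type} (m : V → V → ℕ) (Λ : Set V) : Prop :=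
  ∃ (n : ℕ) (e : ZMod n → V), 3 ≤ n ∧ Function.Injective e ∧ Set.range e = Λ ∧
    ∀ i j, i ≠ j → m (e i) (e j) = if j = i + 1 ∨ i = j + 1 then 3 else 2

/-- Three vertices with labels three, five and two. -/
def IsH3 {V : Type} (m : V → V → ℕ) (Λ : Set V) : Prop :=
  ∃ a b c, a ≠ b ∧ b ≠ c ∧ a ≠ c ∧ Λ = {a, b, c} ∧ m a b = 3 ∧ m b c = 5 ∧ m a c = 2

/-- A centre with label three to each of three leaves, whose mutual labels are two. -/
def IsD4 {V : Type} (m : V → V → ℕ) (Λ : Set V) : Prop :=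
  ∃ o a b c, o ≠ a ∧ o ≠ b ∧ o ≠ c ∧ a ≠ b ∧ b ≠ c ∧ a ≠ c ∧ Λ = {o, a, b, c} ∧
    m o a = 3 ∧ m o b = 3 ∧ m o c = 3 ∧ m a b = 2 ∧ m b c = 2 ∧ m a c = 2

theorem result {V : Type} [Finite V] (m : V → V → ℕ) (symm : ∀ s t, m s t = m t s)
    (ne_one : ∀ s t, s ≠ t → m s t ≠ 1)
    (cliques : ∀ Λ, IrrClique m Λ → Apart m Λ ∨ OddAtTwo m Λ ∨ IsPath m Λ ∨ IsCycle m Λ ∨
      IsH3 m Λ ∨ IsD4 m Λ) :
    ∃ (ι : Type) (_ : Finite ι) (g : ι × Fin 4 → ι × Fin 4) (Z : Set ι), Function.Involutive g ∧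
      ConnectedSpace (Sq g) ∧ (bd g).Nonempty ∧
      Embeds (PresentedGroup (artinRels m)) (MCG {x : Sq g // x ∉ ctr g Z} {x | x.1 ∈ bd g}) := by
  refine (Cl.dc_all symm (fun Λ a b c => ?_) _ _ _).embed
  have nf : ∀ s, ¬ IS.Fr m Λ s → ∃ u ∈ Λ, s ≠ u ∧ m s u = 2 := fun s h => by
    by_contra k
    exact h fun u hu ne e => k ⟨u, hu, ne.symm, e⟩
  have ni : (∀ s ∈ Λ, ∀ t ∈ Λ, ∀ u ∈ Λ, s ≠ t → s ≠ u → m s u = 2 → m s t ≠ 3) → IS.Ni m Λ :=
    fun h => ⟨symm, fun s hs t ht ne => ⟨by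
      have := b s hs t ht ne
      have := ne_one s t ne
      omega, fun e => ⟨fun u hu x y => h s hs t ht u hu ne x.symm y e,
        fun u hu x y => h t ht s hs u hu ne.symm x.symm y (symm s t ▸ e)⟩⟩⟩
  rcases cliques Λ ⟨a, b, c⟩ with h | h | ⟨n, e, inj, rfl, h2, h3⟩ | ⟨n, e, h, inj, rfl, h3⟩ |
    ⟨x, y, z, h1, h2, h3, rfl, h4, h5, h6⟩ |
    ⟨o, x, y, z, h1, h2, h3, h4, h5, h6, rfl, k1, k2, k3, k4, k5, k6⟩
  · refine IS.dc_free V m Λ ne_one (ni fun s hs t ht u hu x y z => (h s hs t ht u hu x y z).1)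
      (Or.inl fun s hs t ht ne f => ?_)
    obtain ⟨u, hu, x, y⟩ := nf s f
    exact (h s hs t ht u hu ne x y).2
  · refine IS.dc_free V m Λ ne_one (ni fun s hs t ht u hu x y z => ?_)
      (Or.inr fun s hs t ht ne f => ?_)
    · have := h s hs t ht u hu x y z
      omega
    · obtain ⟨u, hu, x, y⟩ := nf s f
      exact (h s hs t ht u hu ne x y).imp_right fun u => Nat.odd_iff.1 u.1
  · exact Cl.dc_lin symm ne_one inj h2 h3
  · exact Cl.dc_cyc symm ne_one h inj h3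
  · exact DN.dc_h3 V m x y z symm ne_one h1 h2 h3 h4 h5 h6
  · exact DN.dc_d4 V m o x y z symm ne_one h1 h2 h3 h4 h5 h6 k1 k2 k3 k4 k5 k6

end Pool.Agent.Results.MP_6eaae3_al.TwoApart
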